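import Pool.Agent.H66.IP.TB
import Pool.Agent.H91.XQ.CWS

/-!
# Interactive proofs do not see forrelation: the mean as an average over the weights
-/

set_option autoImplicit false

namespace Pool.Agent.H40.IP

open Finset Pool.Agent.H66.IP Pool.Agent.H70.EH Pool.Agent.H78.XQ

lemma nt_le {V : Type} [Fintype V] (y : V → Bool) : nt y ≤ Fintype.card V := by
  unfold nt
  exact (Finset.card_le_univ _)

lemma ws_none {V : Type} [Fintype V] [DecidableEq V] (W : ℕ) :
    ws (fun _ : V => none) W = univ.filter fun y : V → Bool => nt y = W := by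
  unfold ws
  ext y
  simp only [mem_filter, mem_univ, true_and]
  constructor
  · exact fun h => h.2
  · intro h
    exact ⟨fun v b hb => by simp at hb, h⟩

lemma card_ws {V : Type} [Fintype V] [DecidableEq V] (W : ℕ) :
    (ws (fun _ : V => none) W).card = (Fintype.card V).choose W := by
  have h := Pool.Agent.H91.XQ.cws V (fun _ => none) W (by simp [nv])
  rw [h]
  simp [nv]

lemma wm_mul {V : Type} [Fintype V] [DecidableEq V] (W : ℕ) (F : (V → Bool) → ℝ)
    (hW : W ≤ Fintype.card V) :
    ((Fintype.card V).choose W : ℝ) * wm (fun _ => none) W F =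
      ∑ y ∈ univ.filter (fun y : V → Bool => nt y = W), F y := by
  unfold wm
  rw [card_ws, ws_none]
  have h : ((Fintype.card V).choose W : ℝ) ≠ 0 := by
    exact_mod_cast (Nat.choose_pos hW).ne'
  field_simp

/-- VRN -/
theorem pf_VRN : T_VRN := by
  intro V _ _
  constructor
  · intro F
    unfold mn
    have h1 : ∑ y, F y = ∑ W ∈ range (Fintype.card V + 1),
        ∑ y ∈ univ.filter (fun y : V → Bool => nt y = W), F y := by
      rw [Finset.sum_fiberwise_of_maps_to (s := univ) (t := range (Fintype.card V + 1))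
        (g := fun y : V → Bool => nt y) (f := F)]
      intro y _
      exact Finset.mem_range.2 (Nat.lt_succ_of_le (nt_le y))
    rw [h1, Finset.sum_div]
    refine Finset.sum_congr rfl fun W hW => ?_
    rw [← wm_mul W F (Nat.le_of_lt_succ (Finset.mem_range.1 hW))]
    ring
  · set n := Fintype.card V with hn
    have h := congrArg (Polynomial.eval (1 / 2 : ℝ)) (bernsteinPolynomial.variance ℝ n)
    rw [Polynomial.eval_finset_sum] at h
    simp only [bernsteinPolynomial, Polynomial.eval_mul, Polynomial.eval_pow,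
      Polynomial.eval_sub, Polynomial.eval_smul, Polynomial.eval_X, Polynomial.eval_natCast,
      Polynomial.eval_one, nsmul_eq_mul, smul_eq_mul] at h
    have e : ∑ W ∈ range (n + 1), ((n.choose W : ℝ) / 2 ^ n) * ((W : ℝ) - (n : ℝ) / 2) ^ 2 =
        ∑ x ∈ range (n + 1), ((n : ℝ) * (1 / 2) - (x : ℝ)) ^ 2 *
          ((n.choose x : ℝ) * (1 / 2) ^ x * (1 - 1 / 2) ^ (n - x)) := by
      refine Finset.sum_congr rfl fun W hW => ?_
      have hW' : W ≤ n := Nat.le_of_lt_succ (Finset.mem_range.1 hW)
      have h2 : (1 / 2 : ℝ) ^ W * (1 - 1 / 2) ^ (n - W) = 1 / 2 ^ n := by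
        rw [show (1 - 1 / 2 : ℝ) = 1 / 2 by norm_num, ← pow_add, Nat.add_sub_cancel' hW',
          one_div, inv_pow, one_div]
      rw [mul_assoc ((n.choose W : ℝ)), h2]
      ring
    rw [e, h]
    ring

end Pool.Agent.H40.IP
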