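import Pool.Agent.H66.IP.TC

/-!
# Interactive proofs do not see forrelation: machines do not notice a special row
-/

set_option autoImplicit false

namespace Pool.Agent.H40.IP

open Finset Pool.Agent.H6.NB Pool.Agent.H70.OQ Pool.Agent.H70.EH Pool.Agent.H70.EI
open Pool.Agent.H66.IP

/-- WGP -/
theorem pf_WGP (hTBN : Pool.Agent.H70.EI.T_TBN) (hFML : Pool.Agent.H70.EI.T_FML) :
    Pool.Agent.H66.IP.T_WGP := by
  classical
  intro k M
  obtain ⟨n₀, hn₀⟩ := Filter.eventually_atTop.1 (hTBN k M.c)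
  refine ⟨n₀, fun n hn O hO => ?_⟩
  obtain ⟨f, hf1, hf2⟩ := hFML (Nn n (k + 1)) (k + 1) M O (List.replicate n false)
    (n ^ M.c + M.c + 1) (by rw [List.length_replicate]; omega) hO
  have hok := hn₀ n hn f hf1
  have hacz : ∀ y, acz M n (O y) = bi (f y) := by
    intro y
    unfold acz
    congr 1
    rw [Bool.eq_iff_iff, decide_eq_true_iff]
    exact (hf2 y).symm
  set D := univ.filter fun p : Hid (Fin n → Bool) (Ys n) (k + 1) × (Fin n → Bool) =>
    f (tabU (k + 1) p.1 p.2) ≠ f (tabT (k + 1) p.1) with hD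
  have h1 : ∑ z : Hid (Fin n → Bool) (Ys n) (k + 1) × (Fin n → Bool),
      (acz M n (O (tabU (k + 1) z.1 z.2)) - acz M n (O (tabT (k + 1) z.1))) ≤
      ∑ z : Hid (Fin n → Bool) (Ys n) (k + 1) × (Fin n → Bool),
        (if f (tabU (k + 1) z.1 z.2) ≠ f (tabT (k + 1) z.1) then (1 : ℝ) else 0) := by
    refine Finset.sum_le_sum fun z _ => ?_
    rw [hacz, hacz]
    cases h2 : f (tabU (k + 1) z.1 z.2) <;> cases h3 : f (tabT (k + 1) z.1) <;> simp [bi]
  have h2 : ∑ z : Hid (Fin n → Bool) (Ys n) (k + 1) × (Fin n → Bool),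
      (if f (tabU (k + 1) z.1 z.2) ≠ f (tabT (k + 1) z.1) then (1 : ℝ) else 0) =
      (D.card : ℝ) := by
    rw [Finset.sum_ite, Finset.sum_const, Finset.sum_const_zero, add_zero, nsmul_eq_mul,
      mul_one]
  have h3 : ((4 * D.card : ℕ) : ℝ) ≤
      (Fintype.card (Hid (Fin n → Bool) (Ys n) (k + 1) × (Fin n → Bool)) : ℝ) := by
    exact_mod_cast hok
  push_cast at h3
  linarith

end Pool.Agent.H40.IP
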